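import Mathlib

/-!
# Leaf germs on the tree `3^ω` and its isometries
-/

set_option autoImplicit false

open Set

namespace Pool.Agent.R818.GY

/-- The underlying set. -/
abbrev X : Type := ℕ → Fin 3

/-- The partner of a letter. -/
def p (a : Fin 3) : Fin 3 := if a = 0 then 1 else 0

theorem p_ne (a : Fin 3) : p a ≠ a := by
  unfold p
  split_ifs with h
  · rw [h]; decide
  · exact fun h' => h h'.symm

theorem p_ne_two (a : Fin 3) : p a ≠ 2 := by
  unfold p
  split_ifs <;> decide

/-- A permutation of the letters which sends `a` to `b` and `p a` to `p b`. -/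
def pm (a b c : Fin 3) : Fin 3 :=
  if c = a then b else if c = p a then p b else if p b = 1 then 2 else if b = 1 then 2 else 1

theorem pm_inv : ∀ a b c : Fin 3, pm b a (pm a b c) = c := by decide

theorem pm_self : ∀ a b : Fin 3, pm a b a = b := by decide

theorem pm_p : ∀ a b : Fin 3, pm a b (p a) = p b := by decide

theorem pm_eq : ∀ a b c : Fin 3, pm a b c = b ↔ c = a := by decide

/-- Two points agree below `n`. -/
def Agr (n : ℕ) (x y : X) : Prop := ∀ i < n, x i = y i

theorem Agr.refl (n : ℕ) (x : X) : Agr n x x := fun _ _ => rfl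

theorem Agr.symm {n : ℕ} {x y : X} (h : Agr n x y) : Agr n y x := fun i hi => (h i hi).symm

theorem Agr.trans {n : ℕ} {x y z : X} (h : Agr n x y) (h' : Agr n y z) : Agr n x z :=
  fun i hi => (h i hi).trans (h' i hi)

theorem Agr.mono {n m : ℕ} {x y : X} (h : Agr n x y) (hm : m ≤ n) : Agr m x y :=
  fun i hi => h i (hi.trans_le hm)

/-- The basic neighbourhoods of `x`. -/
def W (n : ℕ) (x : X) : Set X :=
  {z | z = x ∨ ∃ k, n ≤ k ∧ Agr k z x ∧ z k = p (x k) ∧ ∀ i, k < i → z i ≠ 2}

theorem self_mem (n : ℕ) (x : X) : x ∈ W n x := Or.inl rfl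

theorem W_mono {n m : ℕ} (h : n ≤ m) (x : X) : W m x ⊆ W n x := by
  rintro z (rfl | ⟨k, hk, h1⟩)
  · exact self_mem _ _
  · exact Or.inr ⟨k, h.trans hk, h1⟩

theorem agr_of_mem {n : ℕ} {x z : X} (h : z ∈ W n x) : Agr n z x := by
  rcases h with rfl | ⟨k, hk, h1, -⟩
  · exact Agr.refl _ _
  · exact h1.mono hk

theorem mem_of_agr {n m : ℕ} {x z : X} (h : z ∈ W n x) (ha : Agr m z x) : z ∈ W m x := by
  rcases h with rfl | ⟨k, hk, h1, h2, h3⟩
  · exact self_mem _ _
  · refine Or.inr ⟨k, ?_, h1, h2, h3⟩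
    by_contra hlt
    exact p_ne (x k) (h2 ▸ ha k (not_le.1 hlt))

theorem exists_diff {x z : X} (h : z ≠ x) : ∃ k, Agr k z x ∧ z k ≠ x k := by
  classical
  have hex : ∃ k, z k ≠ x k := by
    by_contra hc
    push Not at hc
    exact h (funext hc)
  refine ⟨Nat.find hex, fun i hi => ?_, Nat.find_spec hex⟩
  by_contra hc
  exact Nat.find_min hex hi hc

theorem three_cases : ∀ a b : Fin 3, a ≠ 2 → b ≠ 2 → a ≠ b → a = p b := by decide

/-- Near a point `z` of `W n x`, the set `W n x` is the basic neighbourhood of `z`. -/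
theorem W_germ {n : ℕ} {x z : X} (h : z ∈ W n x) :
    ∃ m, ∀ y, Agr m y z → (y ∈ W n x ↔ y ∈ W m z) := by
  rcases h with rfl | ⟨k, hk, h1, h2, h3⟩
  · exact ⟨n, fun y _ => Iff.rfl⟩
  · refine ⟨k + 1, fun y hy => ?_⟩
    have hyk : y k = p (x k) := (hy k (Nat.lt_succ_self k)).trans h2
    have hyx : Agr k y x := (hy.mono (Nat.le_succ k)).trans h1
    have key : y ∈ W n x ↔ ∀ i, k < i → y i ≠ 2 := by
      constructor
      · rintro (rfl | ⟨j, hj, h4, h5, h6⟩)
        · exact absurd hyk.symm (p_ne _)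
        · have hjk : j = k := by
            rcases lt_trichotomy j k with h7 | h7 | h7
            · exact absurd (hyx j h7 ▸ h5 : x j = p (x j)).symm (p_ne _)
            · exact h7
            · exact absurd ((h4 k h7).symm.trans hyk).symm (p_ne _)
          rw [← hjk]
          exact h6
      · intro h6
        exact Or.inr ⟨k, hk, hyx, hyk, h6⟩
    rw [key]
    constructor
    · intro h6
      by_cases hyz : y = z
      · exact Or.inl hyz
      · obtain ⟨j, hj, hj'⟩ := exists_diff hyz
        have hkj : k + 1 ≤ j := by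
          by_contra hc
          exact hj' (hy j (not_le.1 hc))
        exact Or.inr ⟨j, hkj, hj, three_cases _ _ (h6 j hkj) (h3 j hkj) hj',
          fun i hi => h6 i (lt_of_lt_of_le (Nat.lt_succ_self k) (hkj.trans hi.le))⟩
    · rintro (rfl | ⟨j, hj, h4, h5, h6⟩) i hi
      · exact h3 i hi
      · rcases lt_trichotomy i j with h7 | h7 | h7
        · rw [h4 i h7]; exact h3 i hi
        · rw [h7, h5]; exact p_ne_two _
        · exact h6 i h7

/-- Sets which are closed in the metric topology and have the germ `W` at each of their points. -/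
def Nice (C : Set X) : Prop :=
  (∀ x, x ∉ C → ∃ m, ∀ y, Agr m y x → y ∉ C) ∧
  (∀ x, x ∈ C → ∃ m, ∀ y, Agr m y x → (y ∈ C ↔ y ∈ W m x))

theorem nice_W (n : ℕ) (x : X) : Nice (W n x) := by
  refine ⟨fun y hy => ?_, fun y hy => W_germ hy⟩
  have hne : y ≠ x := fun h => hy (h ▸ self_mem _ _)
  obtain ⟨k, hk, hk'⟩ := exists_diff hne
  -- the first difference of `z ∈ cyl (k+1) y` and `x` is `k`
  have hpos : ∀ z, Agr (k + 1) z y → z ∈ W n x → n ≤ k ∧ z k = p (x k) ∧ ∀ i, k < i → z i ≠ 2 := by
    intro z hz hzW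
    have hzk : z k ≠ x k := by rw [hz k (Nat.lt_succ_self k)]; exact hk'
    rcases hzW with rfl | ⟨j, hj, h4, h5, h6⟩
    · exact absurd rfl hzk
    · have hjk : j = k := by
        rcases lt_trichotomy j k with h7 | h7 | h7
        · have : z j = x j := (hz j (h7.trans (Nat.lt_succ_self k))).trans (hk j h7)
          exact absurd (this ▸ h5 : x j = p (x j)).symm (p_ne _)
        · exact h7
        · exact absurd (h4 k h7) hzk
      subst hjk
      exact ⟨hj, h5, h6⟩
  by_cases h1 : n ≤ k ∧ y k = p (x k)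
  · have h2 : ∃ i, k < i ∧ y i = 2 := by
      by_contra hc
      push Not at hc
      exact hy (Or.inr ⟨k, h1.1, hk, h1.2, hc⟩)
    obtain ⟨i, hi, hi2⟩ := h2
    refine ⟨i + 1, fun z hz hzW => ?_⟩
    have := (hpos z (hz.mono (Nat.succ_le_succ hi.le)) hzW).2.2 i hi
    rw [hz i (Nat.lt_succ_self i)] at this
    exact this hi2
  · refine ⟨k + 1, fun z hz hzW => ?_⟩
    have := hpos z hz hzW
    rw [hz k (Nat.lt_succ_self k)] at this
    exact h1 ⟨this.1, this.2.1⟩

/-- The isometry which moves `v` to `u`. -/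
noncomputable def tr (v u x : X) : X := by
  classical
  exact fun i => if Agr i x v then pm (v i) (u i) (x i) else x i

theorem tr_of_agr {v u x : X} {i : ℕ} (h : Agr i x v) : tr v u x i = pm (v i) (u i) (x i) := by
  unfold tr; rw [if_pos h]

theorem tr_of_not {v u x : X} {i : ℕ} (h : ¬ Agr i x v) : tr v u x i = x i := by
  unfold tr; rw [if_neg h]

theorem agr_succ {n : ℕ} {x y : X} : Agr (n + 1) x y ↔ Agr n x y ∧ x n = y n := by
  constructor
  · intro h
    exact ⟨h.mono (Nat.le_succ n), h n (Nat.lt_succ_self n)⟩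
  · rintro ⟨h, h'⟩ i hi
    rcases Nat.lt_succ_iff_lt_or_eq.1 hi with h1 | h1
    · exact h i h1
    · rw [h1]; exact h'

theorem tr_agr {v u x : X} (n : ℕ) : Agr n (tr v u x) u ↔ Agr n x v := by
  induction n with
  | zero => exact ⟨fun _ i hi => absurd hi (Nat.not_lt_zero i), fun _ i hi => absurd hi (Nat.not_lt_zero i)⟩
  | succ n ih =>
    rw [agr_succ, agr_succ, ih]
    constructor
    · rintro ⟨h, h'⟩
      rw [tr_of_agr h] at h'
      exact ⟨h, (pm_eq _ _ _).1 h'⟩
    · rintro ⟨h, h'⟩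
      refine ⟨h, ?_⟩
      rw [tr_of_agr h]
      exact (pm_eq _ _ _).2 h'

theorem tr_tr (v u x : X) : tr u v (tr v u x) = x := by
  funext i
  by_cases h : Agr i x v
  · rw [tr_of_agr ((tr_agr i).2 h), tr_of_agr h, pm_inv]
  · rw [tr_of_not (fun h' => h ((tr_agr i).1 h')), tr_of_not h]

theorem tr_self (v u : X) : tr v u v = u := by
  funext i
  rw [tr_of_agr (Agr.refl _ _), pm_self]

theorem tr_iso {v u x y : X} {n : ℕ} (h : Agr n x y) : Agr n (tr v u x) (tr v u y) := by
  intro i hi
  by_cases h1 : Agr i x v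
  · have h2 : Agr i y v := (h.mono hi.le).symm.trans h1
    rw [tr_of_agr h1, tr_of_agr h2, h i hi]
  · have h2 : ¬ Agr i y v := fun h2 => h1 ((h.mono hi.le).trans h2)
    rw [tr_of_not h1, tr_of_not h2, h i hi]

theorem tr_mem_W {n : ℕ} {v u x : X} (h : x ∈ W n v) : tr v u x ∈ W n u := by
  rcases h with rfl | ⟨k, hk, h1, h2, h3⟩
  · rw [tr_self]; exact self_mem _ _
  · refine Or.inr ⟨k, hk, (tr_agr k).2 h1, ?_, fun i hi => ?_⟩
    · rw [tr_of_agr h1, h2, pm_p]
    · have : ¬ Agr i x v := by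
        intro h'
        exact p_ne _ (h2 ▸ h' k hi : p (v k) = v k)
      rw [tr_of_not this]
      exact h3 i hi

/-- Maps which fix the tails near `x` carry germs to germs. -/
theorem mem_W_of_tail {g : X → X} (hg : ∀ x y n, Agr n x y → Agr n (g x) (g y)) {m : ℕ} {x z : X}
    (ht : ∀ y, Agr m y x → ∀ i, m ≤ i → g y i = y i) (hz : z ∈ W m x) : g z ∈ W m (g x) := by
  have hzx := agr_of_mem hz
  rcases hz with rfl | ⟨k, hk, h1, h2, h3⟩
  · exact self_mem _ _
  · refine Or.inr ⟨k, hk, hg _ _ _ h1, ?_, fun i hi => ?_⟩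
    · rw [ht z hzx k hk, ht x (Agr.refl _ _) k hk, h2]
    · rw [ht z hzx i (hk.trans hi.le)]
      exact h3 i hi

/-- The group of isometries which preserve the germs. -/
def Good (g : Equiv.Perm X) : Prop :=
  (∀ x y n, Agr n x y ↔ Agr n (g x) (g y)) ∧
  (∀ x, ∃ m, ∀ y, Agr m y x → (y ∈ W m x ↔ g y ∈ W m (g x)))

theorem germ_up {g : Equiv.Perm X} (hg : ∀ x y n, Agr n x y ↔ Agr n (g x) (g y)) {m : ℕ} {x : X}
    (h : ∀ y, Agr m y x → (y ∈ W m x ↔ g y ∈ W m (g x))) {m' : ℕ} (hm : m ≤ m') :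
    ∀ y, Agr m' y x → (y ∈ W m' x ↔ g y ∈ W m' (g x)) := by
  intro y hy
  have h1 := h y (hy.mono hm)
  constructor
  · intro h2
    exact mem_of_agr (h1.1 (W_mono hm _ h2)) ((hg _ _ _).1 hy)
  · intro h2
    exact mem_of_agr (h1.2 (W_mono hm _ h2)) hy

theorem germ_up' {C : Set X} {m : ℕ} {x : X} (h : ∀ y, Agr m y x → (y ∈ C ↔ y ∈ W m x)) {m' : ℕ}
    (hm : m ≤ m') : ∀ y, Agr m' y x → (y ∈ C ↔ y ∈ W m' x) := by
  intro y hy
  rw [h y (hy.mono hm)]
  exact ⟨fun h2 => mem_of_agr h2 hy, fun h2 => W_mono hm _ h2⟩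

/-- The permutation `tr v u`. -/
noncomputable def trE (v u : X) : Equiv.Perm X where
  toFun := tr v u
  invFun := tr u v
  left_inv := tr_tr v u
  right_inv := tr_tr u v

theorem trE_apply (v u x : X) : trE v u x = tr v u x := rfl

theorem tr_iso_iff (v u x y : X) (n : ℕ) : Agr n x y ↔ Agr n (tr v u x) (tr v u y) := by
  refine ⟨tr_iso, fun h => ?_⟩
  have := tr_iso (v := u) (u := v) h
  rwa [tr_tr, tr_tr] at this

theorem tr_germ (v u x : X) : ∃ m, ∀ y, Agr m y x → (y ∈ W m x ↔ tr v u y ∈ W m (tr v u x)) := by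
  by_cases hx : x = v
  · subst hx
    refine ⟨0, fun y _ => ?_⟩
    rw [tr_self]
    refine ⟨tr_mem_W, fun h => ?_⟩
    have := tr_mem_W (u := x) h
    rwa [tr_tr] at this
  · obtain ⟨k, hk, hk'⟩ := exists_diff hx
    refine ⟨k + 1, fun y hy => ?_⟩
    have h1 : ∀ z, Agr (k + 1) z x → ∀ i, k + 1 ≤ i → tr v u z i = z i := by
      intro z hz i hi
      refine tr_of_not fun h' => hk' ?_
      rw [← hz k (Nat.lt_succ_self k)]
      exact h' k hi
    refine ⟨fun h => mem_W_of_tail (fun a b n => tr_iso) h1 h, fun h => ?_⟩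
    have h2 : ∀ z, Agr (k + 1) z (tr v u x) → ∀ i, k + 1 ≤ i → tr u v z i = z i := by
      intro z hz i hi
      have h3 : Agr (k + 1) (tr u v z) x := by
        have := tr_iso (v := u) (u := v) hz
        rwa [tr_tr] at this
      have h4 := h1 _ h3 i hi
      rw [tr_tr] at h4
      exact h4.symm
    have := mem_W_of_tail (g := tr u v) (fun a b n => tr_iso) h2 h
    rwa [tr_tr, tr_tr] at this

theorem good_tr (v u : X) : Good (trE v u) :=
  ⟨fun x y n => tr_iso_iff v u x y n, fun x => tr_germ v u x⟩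

/-- The local swap. -/
noncomputable def sw (n : ℕ) (x z y : X) : X := by
  classical
  exact if Agr (n + 1) y x then tr x z y else if Agr (n + 1) y z then tr z x y else y

section swap

variable {n : ℕ} {x z : X} (hxz : Agr n z x) (hne : z n ≠ x n)

theorem sw_one {y : X} (h : Agr (n + 1) y x) : sw n x z y = tr x z y := by
  unfold sw; rw [if_pos h]

include hne in
theorem sw_two {y : X} (h : Agr (n + 1) y z) : sw n x z y = tr z x y := by
  unfold sw
  rw [if_neg, if_pos h]
  intro h'
  exact hne (((h n (Nat.lt_succ_self n)).symm).trans (h' n (Nat.lt_succ_self n)))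

theorem sw_three {y : X} (h : ¬ Agr (n + 1) y x) (h' : ¬ Agr (n + 1) y z) : sw n x z y = y := by
  unfold sw; rw [if_neg h, if_neg h']

include hne in
theorem sw_sw (y : X) : sw n x z (sw n x z y) = y := by
  by_cases h1 : Agr (n + 1) y x
  · rw [sw_one h1, sw_two hne ((tr_agr _).2 h1), tr_tr]
  · by_cases h2 : Agr (n + 1) y z
    · rw [sw_two hne h2, sw_one ((tr_agr _).2 h2), tr_tr]
    · rw [sw_three h1 h2, sw_three h1 h2]

include hxz hne in
theorem sw_below {y : X} {i : ℕ} (hi : i < n) : sw n x z y i = y i := by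
  by_cases h1 : Agr (n + 1) y x
  · rw [sw_one h1, (tr_agr (n + 1)).2 h1 i (hi.trans (Nat.lt_succ_self n)), hxz i hi,
      h1 i (hi.trans (Nat.lt_succ_self n))]
  · by_cases h2 : Agr (n + 1) y z
    · rw [sw_two hne h2, (tr_agr (n + 1)).2 h2 i (hi.trans (Nat.lt_succ_self n)), ← hxz i hi,
        h2 i (hi.trans (Nat.lt_succ_self n))]
    · rw [sw_three h1 h2]

include hxz hne in
theorem sw_iso {y y' : X} {m : ℕ} (h : Agr m y y') : Agr m (sw n x z y) (sw n x z y') := by
  rcases Nat.lt_or_ge n m with hm | hm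
  · by_cases h1 : Agr (n + 1) y x
    · have h1' : Agr (n + 1) y' x := (h.mono hm).symm.trans h1
      rw [sw_one h1, sw_one h1']
      exact tr_iso h
    · have h1' : ¬ Agr (n + 1) y' x := fun h' => h1 ((h.mono hm).trans h')
      by_cases h2 : Agr (n + 1) y z
      · have h2' : Agr (n + 1) y' z := (h.mono hm).symm.trans h2
        rw [sw_two hne h2, sw_two hne h2']
        exact tr_iso h
      · have h2' : ¬ Agr (n + 1) y' z := fun h' => h2 ((h.mono hm).trans h')
        rw [sw_three h1 h2, sw_three h1' h2']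
        exact h
  · intro i hi
    rw [sw_below hxz hne (hi.trans_le hm), sw_below hxz hne (hi.trans_le hm)]
    exact h i hi

/-- The permutation `sw`. -/
noncomputable def swE : Equiv.Perm X where
  toFun := sw n x z
  invFun := sw n x z
  left_inv := sw_sw hne
  right_inv := sw_sw hne

theorem swE_apply (y : X) : swE hne y = sw n x z y := rfl

include hxz in
theorem good_sw : Good (swE hne) := by
  refine ⟨fun y y' m => ⟨fun h => sw_iso hxz hne h, fun h => ?_⟩, fun y => ?_⟩
  · have := sw_iso hxz hne h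
    rwa [swE_apply, swE_apply, sw_sw hne, sw_sw hne] at this
  · by_cases h1 : Agr (n + 1) y x
    · obtain ⟨m, hm⟩ := tr_germ x z y
      have hm' := germ_up (g := trE x z) (fun a b k => tr_iso_iff x z a b k) hm
        (le_max_left m (n + 1))
      refine ⟨max m (n + 1), fun y' hy' => ?_⟩
      rw [swE_apply, swE_apply, sw_one h1, sw_one ((hy'.mono (le_max_right _ _)).trans h1)]
      exact hm' y' hy'
    · by_cases h2 : Agr (n + 1) y z
      · obtain ⟨m, hm⟩ := tr_germ z x y
        have hm' := germ_up (g := trE z x) (fun a b k => tr_iso_iff z x a b k) hm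
          (le_max_left m (n + 1))
        refine ⟨max m (n + 1), fun y' hy' => ?_⟩
        rw [swE_apply, swE_apply, sw_two hne h2,
          sw_two hne ((hy'.mono (le_max_right _ _)).trans h2)]
        exact hm' y' hy'
      · refine ⟨n + 1, fun y' hy' => ?_⟩
        rw [swE_apply, swE_apply, sw_three h1 h2, sw_three (fun h => h1 (hy'.symm.trans h))
          (fun h => h2 (hy'.symm.trans h))]

end swap

/-- Local transitivity: the stabiliser of finitely many nice sets moves `x` to each point of a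
basic neighbourhood of `x`. -/
theorem exists_good (F : Finset (Set X)) (hF : ∀ C ∈ F, Nice C) (x : X) :
    ∃ m, ∀ z ∈ W m x, ∃ g : Equiv.Perm X, Good g ∧ g x = z ∧ ∀ C ∈ F, ∀ y, y ∈ C ↔ g y ∈ C := by
  classical
  have h1 : ∀ C ∈ F, ∃ m, (∀ y, Agr m y x → y ∉ C) ∨ (∀ y, Agr m y x → (y ∈ C ↔ y ∈ W m x)) := by
    intro C hC
    by_cases hx : x ∈ C
    · obtain ⟨m, hm⟩ := (hF C hC).2 x hx
      exact ⟨m, Or.inr hm⟩
    · obtain ⟨m, hm⟩ := (hF C hC).1 x hx
      exact ⟨m, Or.inl hm⟩
  choose! f hf using h1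
  refine ⟨F.sup f, fun z hz => ?_⟩
  set m := F.sup f with hm
  have hf' : ∀ C ∈ F, (∀ y, Agr m y x → y ∉ C) ∨ (∀ y, Agr m y x → (y ∈ C ↔ y ∈ W m x)) := by
    intro C hC
    have hle : f C ≤ m := Finset.le_sup hC
    rcases hf C hC with h | h
    · exact Or.inl fun y hy => h y (hy.mono hle)
    · exact Or.inr (germ_up' h hle)
  by_cases hzx : z = x
  · subst hzx
    refine ⟨Equiv.refl _, ⟨fun _ _ _ => Iff.rfl, fun _ => ⟨0, fun _ _ => Iff.rfl⟩⟩, rfl,
      fun _ _ _ => Iff.rfl⟩
  · obtain ⟨n, hn, hzx', hzn, h2⟩ := hz.resolve_left hzx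
    have hne : z n ≠ x n := by rw [hzn]; exact p_ne _
    -- inside `W m x` the two pieces are the basic neighbourhoods
    have hz1 : ∀ y, Agr (n + 1) y x → (y ∈ W m x ↔ y ∈ W (n + 1) x) := fun y hy =>
      ⟨fun h => mem_of_agr h hy, fun h => W_mono (hn.trans (Nat.le_succ n)) _ h⟩
    have hz2 : ∀ y, Agr (n + 1) y z → (y ∈ W m x ↔ y ∈ W (n + 1) z) := by
      intro y hy
      have hyn : y n = p (x n) := (hy n (Nat.lt_succ_self n)).trans hzn
      have hyx : Agr n y x := (hy.mono (Nat.le_succ n)).trans hzx'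
      constructor
      · rintro (rfl | ⟨j, hj, h4, h5, h6⟩)
        · exact absurd hyn.symm (p_ne _)
        · have hjk : j = n := by
            rcases lt_trichotomy j n with h7 | h7 | h7
            · exact absurd (hyx j h7 ▸ h5 : x j = p (x j)).symm (p_ne _)
            · exact h7
            · exact absurd ((h4 n h7).symm.trans hyn).symm (p_ne _)
          subst hjk
          by_cases hyz : y = z
          · exact Or.inl hyz
          · obtain ⟨i, hi, hi'⟩ := exists_diff hyz
            have hki : j + 1 ≤ i := by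
              by_contra hc
              exact hi' (hy i (not_le.1 hc))
            exact Or.inr ⟨i, hki, hi, three_cases _ _ (h6 i hki) (h2 i hki) hi',
              fun l hl => h6 l (lt_of_lt_of_le (Nat.lt_succ_self j) (hki.trans hl.le))⟩
      · rintro (rfl | ⟨j, hj, h4, h5, h6⟩)
        · exact Or.inr ⟨n, hn, hzx', hzn, h2⟩
        · refine Or.inr ⟨n, hn, hyx, hyn, fun i hi => ?_⟩
          rcases lt_trichotomy i j with h7 | h7 | h7
          · rw [h4 i h7]; exact h2 i hi
          · rw [h7, h5]; exact p_ne_two _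
          · exact h6 i h7
    have hfwd : ∀ C ∈ F, ∀ y, y ∈ C → sw n x z y ∈ C := by
      intro C hC y hy
      by_cases h3 : Agr (n + 1) y x
      · have hyx : Agr m y x := h3.mono (hn.trans (Nat.le_succ n))
        rcases hf' C hC with h4 | h4
        · exact absurd hy (h4 y hyx)
        · have h5 : y ∈ W (n + 1) x := (hz1 y h3).1 ((h4 y hyx).1 hy)
          rw [sw_one h3]
          have h6 : tr x z y ∈ W (n + 1) z := tr_mem_W h5
          have h7 : Agr (n + 1) (tr x z y) z := agr_of_mem h6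
          exact (h4 _ ((h7.mono (hn.trans (Nat.le_succ n))).trans (hzx'.mono hn))).2
            ((hz2 _ h7).2 h6)
      · by_cases h3' : Agr (n + 1) y z
        · have hyx : Agr m y x := (h3'.mono (hn.trans (Nat.le_succ n))).trans (hzx'.mono hn)
          rcases hf' C hC with h4 | h4
          · exact absurd hy (h4 y hyx)
          · have h5 : y ∈ W (n + 1) z := (hz2 y h3').1 ((h4 y hyx).1 hy)
            rw [sw_two hne h3']
            have h6 : tr z x y ∈ W (n + 1) x := tr_mem_W h5
            have h7 : Agr (n + 1) (tr z x y) x := agr_of_mem h6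
            exact (h4 _ (h7.mono (hn.trans (Nat.le_succ n)))).2 ((hz1 _ h7).2 h6)
        · rw [sw_three h3 h3']
          exact hy
    refine ⟨swE hne, good_sw hzx' hne, ?_, fun C hC y => ⟨fun h => hfwd C hC y h, fun h => ?_⟩⟩
    · rw [swE_apply, sw_one (Agr.refl _ _), tr_self]
    · have := hfwd C hC _ h
      rwa [swE_apply, sw_sw hne] at this

end Pool.Agent.R818.GY
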