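import Mathlib
import Pool.Agent.R818.GY.Comb

/-!
# The topological group and its coset space
-/

set_option autoImplicit false

open Set Filter Topology

namespace Pool.Agent.R818.GY

theorem nice_image {g : Equiv.Perm X} (hg : Good g) {C : Set X} (hC : Nice C) :
    Nice (g '' C) := by
  constructor
  · intro x hx
    have h1 : g.symm x ∉ C := fun h => hx ⟨_, h, g.apply_symm_apply x⟩
    obtain ⟨m, hm⟩ := hC.1 _ h1
    refine ⟨m, ?_⟩
    rintro y hy ⟨c, hc, rfl⟩
    refine hm c ?_ hc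
    rw [hg.1 c (g.symm x) m, g.apply_symm_apply]
    exact hy
  · rintro _ ⟨x, hx, rfl⟩
    obtain ⟨m, hm⟩ := hC.2 x hx
    obtain ⟨k, hk⟩ := hg.2 x
    refine ⟨max m k, fun y hy => ?_⟩
    have h1 : Agr (max m k) (g.symm y) x := by
      rw [hg.1, g.apply_symm_apply]; exact hy
    have h2 := germ_up' hm (le_max_left m k) _ h1
    have h3 := germ_up hg.1 hk (le_max_right m k) _ h1
    rw [g.apply_symm_apply] at h3
    rw [← h3, ← h2]
    constructor
    · rintro ⟨c, hc, rfl⟩
      rwa [g.symm_apply_apply]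
    · intro h
      exact ⟨_, h, g.apply_symm_apply y⟩

theorem good_one : Good 1 := ⟨fun _ _ _ => Iff.rfl, fun _ => ⟨0, fun _ _ => Iff.rfl⟩⟩

theorem good_mul {g h : Equiv.Perm X} (hg : Good g) (hh : Good h) : Good (g * h) := by
  refine ⟨fun x y n => (hh.1 x y n).trans (hg.1 _ _ n), fun x => ?_⟩
  obtain ⟨m, hm⟩ := hh.2 x
  obtain ⟨k, hk⟩ := hg.2 (h x)
  refine ⟨max m k, fun y hy => ?_⟩
  exact (germ_up hh.1 hm (le_max_left m k) y hy).trans
    (germ_up hg.1 hk (le_max_right m k) (h y) ((hh.1 _ _ _).1 hy))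

theorem good_inv {g : Equiv.Perm X} (hg : Good g) : Good g⁻¹ := by
  have hiso : ∀ x y n, Agr n x y ↔ Agr n (g⁻¹ x) (g⁻¹ y) := by
    intro x y n
    rw [hg.1 (g⁻¹ x) (g⁻¹ y) n]
    simp
  refine ⟨hiso, fun x => ?_⟩
  obtain ⟨m, hm⟩ := hg.2 (g⁻¹ x)
  refine ⟨m, fun y hy => ?_⟩
  have := hm (g⁻¹ y) ((hiso _ _ _).1 hy)
  have e : ∀ w, g (g⁻¹ w) = w := fun w => by simp
  rw [e, e] at this
  exact this.symm

/-- The group. -/
def GS : Subgroup (Equiv.Perm X) where
  carrier := {g | Good g}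
  mul_mem' := good_mul
  one_mem' := good_one
  inv_mem' := good_inv

/-- The group as a type. -/
abbrev GG : Type := GS

/-- The stabiliser of finitely many nice sets. -/
def N (F : Finset (Set X)) : Set GG := {g | ∀ C ∈ F, ∀ y, y ∈ C ↔ g.1 y ∈ C}

theorem N_one (F : Finset (Set X)) : (1 : GG) ∈ N F := fun _ _ _ => Iff.rfl

theorem N_mul {F : Finset (Set X)} {g h : GG} (hg : g ∈ N F) (hh : h ∈ N F) : g * h ∈ N F :=
  fun C hC y => (hh C hC y).trans (hg C hC _)

theorem N_inv {F : Finset (Set X)} {g : GG} (hg : g ∈ N F) : g⁻¹ ∈ N F := by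
  intro C hC y
  have := hg C hC (g⁻¹.1 y)
  rw [this]
  have h : g.1 (g⁻¹.1 y) = y := by
    show g.1 (g.1⁻¹ y) = y
    simp
  rw [h]

open scoped Classical in
/-- The group filter basis. -/
@[instance_reducible] noncomputable def basis : GroupFilterBasis GG where
  sets := {U | ∃ F : Finset (Set X), (∀ C ∈ F, Nice C) ∧ U = N F}
  nonempty := ⟨N ∅, ∅, by simp, rfl⟩
  inter_sets := by
    rintro _ _ ⟨F, hF, rfl⟩ ⟨F', hF', rfl⟩
    refine ⟨N (F ∪ F'), ⟨F ∪ F', ?_, rfl⟩, ?_⟩
    · intro C hC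
      rcases Finset.mem_union.1 hC with h | h
      · exact hF C h
      · exact hF' C h
    · intro g hg
      exact ⟨fun C hC => hg C (Finset.mem_union_left _ hC),
        fun C hC => hg C (Finset.mem_union_right _ hC)⟩
  one' := by
    rintro _ ⟨F, hF, rfl⟩
    exact N_one F
  mul' := by
    rintro _ ⟨F, hF, rfl⟩
    refine ⟨N F, ⟨F, hF, rfl⟩, ?_⟩
    rintro _ ⟨a, ha, b, hb, rfl⟩
    exact N_mul ha hb
  inv' := by
    rintro _ ⟨F, hF, rfl⟩
    exact ⟨N F, ⟨F, hF, rfl⟩, fun g hg => N_inv hg⟩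
  conj' := by
    rintro x₀ _ ⟨F, hF, rfl⟩
    refine ⟨N (F.image fun C => (x₀⁻¹).1 '' C), ⟨_, ?_, rfl⟩, ?_⟩
    · intro C hC
      obtain ⟨C', hC', rfl⟩ := Finset.mem_image.1 hC
      exact nice_image (x₀⁻¹).2 (hF C' hC')
    · intro g hg C hC y
      have h1 := hg _ (Finset.mem_image_of_mem _ hC) ((x₀⁻¹).1 y)
      have h2 : ∀ w, w ∈ (x₀⁻¹).1 '' C ↔ x₀.1 w ∈ C := by
        intro w
        constructor
        · rintro ⟨c, hc, rfl⟩
          have : x₀.1 ((x₀⁻¹).1 c) = c := by
            show x₀.1 (x₀.1⁻¹ c) = c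
            simp
          rwa [this]
        · intro hw
          refine ⟨x₀.1 w, hw, ?_⟩
          show x₀.1⁻¹ (x₀.1 w) = w
          simp
      rw [h2, h2] at h1
      have h3 : x₀.1 ((x₀⁻¹).1 y) = y := by
        show x₀.1 (x₀.1⁻¹ y) = y
        simp
      rw [h3] at h1
      exact h1

noncomputable instance : TopologicalSpace GG := basis.topology

instance : IsTopologicalGroup GG := GroupFilterBasis.isTopologicalGroup basis

theorem nhds_basis (g : GG) :
    (𝓝 g).HasBasis (fun V : Set GG => V ∈ basis) fun V => (fun y => g * y) '' V :=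
  basis.nhds_hasBasis g

theorem mem_basis {F : Finset (Set X)} (hF : ∀ C ∈ F, Nice C) : N F ∈ basis := ⟨F, hF, rfl⟩

instance : T2Space GG := by
  rw [GroupFilterBasis.t2Space_iff_sInter_subset basis rfl]
  intro g hg
  rw [mem_singleton_iff]
  refine Subtype.ext (Equiv.ext fun x => funext fun i => ?_)
  have h1 : g ∈ N {W (i + 1) x} := hg _ (mem_basis (by
    intro C hC
    rw [Finset.mem_singleton.1 hC]
    exact nice_W _ _))
  have h2 : g.1 x ∈ W (i + 1) x := (h1 _ (Finset.mem_singleton_self _) x).1 (self_mem _ _)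
  exact agr_of_mem h2 i (Nat.lt_succ_self i)

/-- The space of the points with the topology of the germs. -/
def XT : Type := X

instance : TopologicalSpace XT where
  IsOpen U := ∀ x : X, (x : XT) ∈ U → ∃ n, ∀ z : X, z ∈ W n x → (z : XT) ∈ U
  isOpen_univ := fun _ _ => ⟨0, fun _ _ => trivial⟩
  isOpen_inter := by
    intro U V hU hV x hx
    obtain ⟨n, hn⟩ := hU x hx.1
    obtain ⟨m, hm⟩ := hV x hx.2
    exact ⟨max n m, fun z hz => ⟨hn z (W_mono (le_max_left _ _) _ hz),
      hm z (W_mono (le_max_right _ _) _ hz)⟩⟩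
  isOpen_sUnion := by
    intro S hS x hx
    obtain ⟨U, hU, hxU⟩ := hx
    obtain ⟨n, hn⟩ := hS U hU x hxU
    exact ⟨n, fun z hz => ⟨U, hU, hn z hz⟩⟩

theorem isOpen_iff (U : Set XT) :
    IsOpen U ↔ ∀ x : X, (x : XT) ∈ U → ∃ n, ∀ z : X, z ∈ W n x → (z : XT) ∈ U := Iff.rfl

/-- Basic neighbourhoods as subsets of `XT`. -/
def WT (n : ℕ) (x : XT) : Set XT := W n x

theorem isOpen_WT (n : ℕ) (x : XT) : IsOpen (WT n x) := by
  rw [isOpen_iff]
  intro z hz
  obtain ⟨m, hm⟩ := W_germ (n := n) (x := x) hz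
  exact ⟨m, fun y hy => (hm y (agr_of_mem hy)).2 hy⟩

theorem nhds_XT (x : XT) : (𝓝 x).HasBasis (fun _ : ℕ => True) fun n => WT n x := by
  constructor
  intro s
  rw [mem_nhds_iff]
  constructor
  · rintro ⟨U, hUs, hU, hxU⟩
    obtain ⟨n, hn⟩ := (isOpen_iff U).1 hU x hxU
    exact ⟨n, trivial, fun z hz => hUs (hn z hz)⟩
  · rintro ⟨n, -, hn⟩
    exact ⟨WT n x, hn, isOpen_WT n x, self_mem _ _⟩

instance : FirstCountableTopology XT := ⟨fun x => (nhds_XT x).isCountablyGenerated⟩

/-- The orbit map. -/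
def orb (g : GG) : XT := g.1 (fun _ => 0 : X)

theorem orb_surjective : Function.Surjective orb := by
  intro x
  exact ⟨⟨trE (fun _ => 0) x, good_tr _ _⟩, tr_self _ _⟩

theorem continuous_orb : Continuous orb := by
  rw [continuous_iff_continuousAt]
  intro g
  rw [ContinuousAt, (nhds_basis g).tendsto_iff (nhds_XT (orb g))]
  intro n _
  obtain ⟨m, hm⟩ := g.2.2 (fun _ => 0)
  refine ⟨N {W (max m n) (fun _ => 0)}, mem_basis (by
    intro C hC
    rw [Finset.mem_singleton.1 hC]
    exact nice_W _ _), ?_⟩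
  rintro _ ⟨h, hh, rfl⟩
  have h1 : h.1 (fun _ => 0 : X) ∈ W (max m n) (fun _ => 0 : X) :=
    (hh _ (Finset.mem_singleton_self _) _).1 (self_mem _ _)
  have h2 := (germ_up g.2.1 hm (le_max_left m n) _ (agr_of_mem h1)).1 h1
  exact W_mono (le_max_right m n) _ h2

theorem isOpenMap_orb : IsOpenMap orb := by
  rw [isOpenMap_iff_nhds_le]
  intro g
  intro s hs
  rw [mem_map] at hs
  obtain ⟨V, ⟨F, hF, rfl⟩, hV⟩ := (nhds_basis g).mem_iff.1 hs
  obtain ⟨m, hm⟩ := exists_good F hF (fun _ => 0)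
  rw [(nhds_XT (orb g)).mem_iff]
  obtain ⟨k, hk⟩ := g.2.2 (fun _ => 0)
  refine ⟨max m k, trivial, fun z hz => ?_⟩
  -- pull `z` back by `g`
  have h0 : Agr (max m k) (g.1.symm z) (fun _ => 0) := by
    rw [g.2.1, g.1.apply_symm_apply]
    exact agr_of_mem (show (z : X) ∈ W (max m k) (g.1 fun _ => 0) from hz)
  have h1 : (g.1.symm z) ∈ W (max m k) (fun _ => 0 : X) := by
    rw [germ_up g.2.1 hk (le_max_right m k) _ h0, g.1.apply_symm_apply]
    exact hz
  obtain ⟨h, hgood, hhx, hhF⟩ := hm _ (W_mono (le_max_left m k) _ h1)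
  have h2 : g * (⟨h, hgood⟩ : GG) ∈ orb ⁻¹' s := hV ⟨⟨h, hgood⟩, hhF, rfl⟩
  have h3 : orb (g * (⟨h, hgood⟩ : GG)) = z := by
    show g.1 (h (fun _ => 0)) = z
    rw [hhx, g.1.apply_symm_apply]
  rw [mem_preimage, h3] at h2
  exact h2

theorem isQuotientMap_orb : IsQuotientMap orb :=
  isOpenMap_orb.isQuotientMap continuous_orb orb_surjective

/-- The quotient by the fibres of the orbit map is homeomorphic to `XT`. -/
noncomputable def quotHomeo : Quotient (Setoid.ker orb) ≃ₜ XT :=
  Equiv.toHomeomorphOfContinuousOpen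
    (Setoid.quotientKerEquivOfSurjective orb orb_surjective)
    (by
      rw [isQuotientMap_quotient_mk'.continuous_iff]
      exact continuous_orb)
    (by
      intro U hU
      have h : (Setoid.quotientKerEquivOfSurjective orb orb_surjective) '' U =
          orb '' (Quotient.mk (Setoid.ker orb) ⁻¹' U) := by
        ext y
        constructor
        · rintro ⟨q, hq, rfl⟩
          induction q using Quotient.inductionOn with
          | h g => exact ⟨g, hq, rfl⟩
        · rintro ⟨g, hg, rfl⟩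
          exact ⟨_, hg, rfl⟩
      rw [h]
      exact isOpenMap_orb _ (hU.preimage continuous_quotient_mk'))

/-- The points with finitely many nonzero coordinates are dense. -/
theorem separable_XT : TopologicalSpace.SeparableSpace XT := by
  classical
  refine ⟨⟨range (fun l : List (Fin 3) => (fun i => l.getD i 0 : X)), countable_range _, ?_⟩⟩
  intro x
  rw [mem_closure_iff_nhds_basis (nhds_XT x)]
  intro n _
  refine ⟨_, ⟨(List.ofFn fun i : Fin n => (x : X) i) ++ [p ((x : X) n)], rfl⟩, ?_⟩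
  refine Or.inr ⟨n, le_rfl, fun i hi => ?_, ?_, fun i hi => ?_⟩
  · show (List.ofFn (fun i : Fin n => (x : X) i) ++ [p ((x : X) n)]).getD i 0 = (x : X) i
    rw [List.getD_append _ _ _ _ (by simpa using hi)]
    simp [List.getD_eq_getElem?_getD, hi]
  · show (List.ofFn (fun i : Fin n => (x : X) i) ++ [p ((x : X) n)]).getD n 0 = p ((x : X) n)
    rw [List.getD_append_right _ _ _ _ (by simp)]
    simp
  · show (List.ofFn (fun i : Fin n => (x : X) i) ++ [p ((x : X) n)]).getD i 0 ≠ 2
    rw [List.getD_eq_default _ _ (by simp; omega)]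
    decide

/-- The points with infinitely many coordinates `2`. -/
def EE : Set XT := {x | ∀ n, ∃ i, n < i ∧ (x : X) i = 2}

theorem discrete_EE : DiscreteTopology EE := by
  rw [discreteTopology_iff_nhds]
  intro x
  rw [nhds_subtype_eq_comap]
  refine le_antisymm ?_ (by rw [← nhds_subtype_eq_comap]; exact pure_le_nhds x)
  intro s hs
  rw [mem_pure] at hs
  rw [mem_comap]
  refine ⟨WT 0 x, (nhds_XT x.1).mem_of_mem trivial, ?_⟩
  rintro ⟨y, hy⟩ hyW
  rcases (show (y : X) ∈ W 0 (x.1 : X) from hyW) with h | ⟨k, -, -, -, h3⟩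
  · have : (⟨y, hy⟩ : EE) = x := Subtype.ext h
    rw [this]
    exact hs
  · obtain ⟨i, hi, hi2⟩ := hy k
    exact absurd hi2 (h3 i hi)

theorem uncountable_EE : ¬ EE.Countable := by
  intro h
  let f : (ℕ → Bool) → XT := fun b => (fun i => if i % 2 = 0 then 2 else if b (i / 2) then 1 else 0 : X)
  have hf : ∀ b, f b ∈ EE := by
    intro b n
    refine ⟨2 * (n + 1), by omega, ?_⟩
    show (if (2 * (n + 1)) % 2 = 0 then (2 : Fin 3) else _) = 2
    rw [if_pos (by omega)]
  have hinj : Function.Injective f := by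
    intro b c hbc
    funext n
    have h1 : (f b : X) (2 * n + 1) = (f c : X) (2 * n + 1) := by rw [hbc]
    have h2 : ∀ d : ℕ → Bool, (f d : X) (2 * n + 1) = if d n then 1 else 0 := by
      intro d
      show (if (2 * n + 1) % 2 = 0 then (2 : Fin 3) else if d ((2 * n + 1) / 2) then 1 else 0) = _
      rw [if_neg (by omega), show (2 * n + 1) / 2 = n by omega]
    rw [h2, h2] at h1
    cases hb : b n <;> cases hc : c n <;> simp [hb, hc] at h1 <;> rfl
  have h3 : Countable (ℕ → Bool) := by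
    have : Countable EE := h.to_subtype
    exact Function.Injective.countable (f := fun b => (⟨f b, hf b⟩ : EE))
      (fun b c hbc => hinj (congrArg Subtype.val hbc))
  obtain ⟨e, he⟩ := exists_surjective_nat (ℕ → Bool)
  obtain ⟨n, hn⟩ := he fun n => !(e n n)
  have := congrFun hn n
  simp at this

theorem not_metrizable : ¬ TopologicalSpace.MetrizableSpace XT := by
  intro h
  letI : MetricSpace XT := TopologicalSpace.metrizableSpaceMetric XT
  haveI : TopologicalSpace.SeparableSpace XT := separable_XT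
  haveI : SecondCountableTopology XT := UniformSpace.secondCountable_of_separable XT
  haveI := discrete_EE
  obtain ⟨s, hs, hd⟩ := TopologicalSpace.exists_countable_dense EE
  rw [dense_discrete] at hd
  subst hd
  exact uncountable_EE ((countable_univ_iff.1 hs).to_set)

end Pool.Agent.R818.GY
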